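import Pool.Agent.Y184.NT.StC
import Pool.Agent.Y614.NT.Line
import Pool.Agent.Y153.NT.CB

/-!
# The ratios of the traces separate the tangent vectors (`StGT` from `StCB2`)
-/

set_option autoImplicit false

open Module Polynomial

namespace Pool.Agent.Y954.NT

open Pool.Agent.Y184.NT
open scoped TensorProduct

section lift

variable {L K : Type} [Field L] [Field K] [Algebra ℂ L] [Algebra ℂ K] [Algebra L K]
  [IsScalarTower ℂ L K]

/-- extension of derivations -/
lemma exists_lift [Algebra.IsSeparable L K] (D : Derivation ℂ L L) :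
    ∃ D' : Derivation ℂ K K, ∀ f, D' (algebraMap L K f) = algebraMap L K (D f) := by
  have := Algebra.FormallyEtale.of_isSeparable L K
  let φ : Ω[L⁄ℂ] →ₗ[L] K := (Algebra.linearMap L K) ∘ₗ D.liftKaehlerDifferential
  let χ : Ω[K⁄ℂ] →ₗ[K] K := (φ.liftBaseChange K) ∘ₗ
    (KaehlerDifferential.tensorKaehlerEquivOfFormallyEtale ℂ L K).symm.toLinearMap
  refine ⟨χ.compDer (KaehlerDifferential.D ℂ K), fun f => ?_⟩
  show (φ.liftBaseChange K) ((KaehlerDifferential.tensorKaehlerEquivOfFormallyEtale ℂ L K).symm
    (KaehlerDifferential.D ℂ K (algebraMap L K f))) = _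
  rw [KaehlerDifferential.tensorKaehlerEquivOfFormallyEtale_symm_D_algebraMap,
    LinearMap.liftBaseChange_tmul, one_smul]
  show algebraMap L K (D.liftKaehlerDifferential (KaehlerDifferential.D ℂ L f)) = _
  rw [Derivation.liftKaehlerDifferential_comp_D]

/-- derivations and traces -/
lemma trace_der [FiniteDimensional L K] {D : Derivation ℂ L L} {D' : Derivation ℂ K K}
    (h : ∀ f, D' (algebraMap L K f) = algebraMap L K (D f)) (u : K) :
    Algebra.trace L K (D' u) = D (Algebra.trace L K u) := by
  classical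
  let b := Module.finBasis L K
  have hD : ∀ (l : L) (y : K), D' (l • y) = D l • y + l • D' y := by
    intro l y
    rw [Algebra.smul_def, D'.leibniz, h, smul_eq_mul, smul_eq_mul, Algebra.smul_def,
      Algebra.smul_def]
    ring
  have tr : ∀ y : K, Algebra.trace L K y = ∑ j, b.coord j (y * b j) := by
    intro y
    rw [Algebra.trace_eq_matrix_trace b, Matrix.trace]
    refine Finset.sum_congr rfl fun j _ => ?_
    rw [Matrix.diag_apply, Algebra.leftMulMatrix_eq_repr_mul]
    rfl
  have ex : ∀ y : K, y = ∑ i, b.coord i y • b i := fun y => (b.sum_repr y).symm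
  have hb : ∀ i j, b.coord j (b i) = if i = j then 1 else 0 := by
    intro i j
    rw [Basis.coord_apply, Basis.repr_self_apply]
  have e1 : ∀ j, b.coord j (D' u * b j) = D (b.coord j (u * b j)) +
      (∑ i, b.coord i (u * b j) * b.coord j (D' (b i)) -
        ∑ i, b.coord i (D' (b j)) * b.coord j (u * b i)) := by
    intro j
    have h1 : D' (u * b j) = ∑ i, (D (b.coord i (u * b j)) • b i +
        b.coord i (u * b j) • D' (b i)) := by
      conv_lhs => rw [ex (u * b j)]
      rw [map_sum]
      exact Finset.sum_congr rfl fun i _ => hD _ _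
    have h2 : D' (u * b j) = D' u * b j + u * D' (b j) := by
      rw [D'.leibniz, smul_eq_mul, smul_eq_mul]
      ring
    have h3 : u * D' (b j) = ∑ i, b.coord i (D' (b j)) • (u * b i) := by
      conv_lhs => rw [ex (D' (b j))]
      rw [Finset.mul_sum]
      exact Finset.sum_congr rfl fun i _ => mul_smul_comm _ _ _
    have h4 : D' u * b j = ∑ i, (D (b.coord i (u * b j)) • b i +
        b.coord i (u * b j) • D' (b i)) - ∑ i, b.coord i (D' (b j)) • (u * b i) := by
      rw [← h1, ← h3, h2]
      ring
    rw [h4, map_sub, map_sum, map_sum]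
    simp only [map_add, map_smul, smul_eq_mul, hb, mul_ite, mul_one, mul_zero]
    rw [Finset.sum_add_distrib, Finset.sum_ite_eq' Finset.univ j]
    simp only [Finset.mem_univ, if_true]
    ring
  rw [tr, tr, map_sum, Finset.sum_congr rfl fun j _ => e1 j, Finset.sum_add_distrib,
    Finset.sum_sub_distrib]
  have e2 : ∑ j, ∑ i, b.coord i (u * b j) * b.coord j (D' (b i)) =
      ∑ j, ∑ i, b.coord i (D' (b j)) * b.coord j (u * b i) := by
    rw [Finset.sum_comm]
    exact Finset.sum_congr rfl fun i _ => Finset.sum_congr rfl fun j _ => mul_comm _ _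
  rw [e2, sub_self, add_zero]

/-- the field of constants -/
def cst (D' : Derivation ℂ K K) : IntermediateField ℂ K where
  carrier := {y | D' y = 0}
  mul_mem' := by
    intro a b ha hb
    change D' a = 0 at ha
    change D' b = 0 at hb
    change D' (a * b) = 0
    rw [D'.leibniz, ha, hb, smul_zero, smul_zero, add_zero]
  add_mem' := by
    intro a b ha hb
    change D' a = 0 at ha
    change D' b = 0 at hb
    change D' (a + b) = 0
    rw [map_add, ha, hb, add_zero]
  algebraMap_mem' := fun r => D'.map_algebraMap r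
  inv_mem' := by
    intro a ha
    change D' a = 0 at ha
    change D' a⁻¹ = 0
    rw [D'.leibniz_inv, ha, smul_zero]

omit [Algebra ℂ L] [IsScalarTower ℂ L K] [Algebra L K] [Field L] in
lemma mem_cst {D' : Derivation ℂ K K} {y : K} : y ∈ cst D' ↔ D' y = 0 := Iff.rfl

omit [Algebra ℂ L] [IsScalarTower ℂ L K] [Algebra L K] [Field L] in
/-- an element which is algebraic over the constants is a constant -/
lemma const_of_alg (D' : Derivation ℂ K K) {τ : K} (h : IsAlgebraic (cst D') τ) : D' τ = 0 := by
  let D2 : Derivation (cst D') K K :=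
    { toFun := D'
      map_add' := map_add D'
      map_smul' := fun c y => by
        change D' ((c : K) * y) = (c : K) * D' y
        have hc : D' (c : K) = 0 := c.2
        rw [D'.leibniz, hc, smul_zero, add_zero, smul_eq_mul]
      map_one_eq_zero' := D'.map_one_eq_zero
      leibniz' := D'.leibniz }
  have hint : IsIntegral (cst D') τ := h.isIntegral
  have hchar : CharZero (cst D') :=
    charZero_of_injective_algebraMap (algebraMap ℂ (cst D')).injective
  have h1 : D2 (aeval τ (minpoly (cst D') τ)) =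
      aeval τ (derivative (minpoly (cst D') τ)) • D2 τ := D2.map_aeval _ _
  rw [minpoly.aeval, map_zero] at h1
  have h2 : aeval τ (derivative (minpoly (cst D') τ)) ≠ 0 :=
    (minpoly.irreducible hint).separable.aeval_derivative_ne_zero (minpoly.aeval _ _)
  rcases smul_eq_zero.1 h1.symm with h3 | h3
  · exact absurd h3 h2
  · exact h3

end lift

section rel

variable {L K Ω : Type} [Field L] [Field K] [Field Ω] [IsAlgClosed Ω] [Algebra L K]
  [Algebra L Ω] [FiniteDimensional L K] [Algebra.IsSeparable L K] {N m : ℕ}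

omit [IsAlgClosed Ω] in
lemma exp_l (l : Fin m → Module.Dual Ω (Fin N → Ω)) (w : Fin m → Fin N → Ω) :
    ∏ k, l k (w k) = ∑ f : Fin m → Fin N, (∏ k, l k (Pi.single (f k) 1)) * ∏ k, w k (f k) := by
  classical
  have e1 : ∀ k : Fin m, l k (w k) = ∑ j, w k j * l k (Pi.single j 1) := by
    intro k
    conv_lhs => rw [pi_eq_sum_univ' (w k)]
    rw [map_sum]
    refine Finset.sum_congr rfl fun j _ => ?_
    rw [map_smul, smul_eq_mul]
  simp only [e1]
  rw [Finset.prod_univ_sum, Fintype.piFinset_univ]
  refine Finset.sum_congr rfl fun f _ => ?_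
  rw [Finset.prod_mul_distrib, mul_comm]

/-- the relations for all products of linear forms -/
lemma rel2 (x y : Fin N → K) (h q : K)
    (htr : ∀ f : Fin m → Fin N, Algebra.trace L K (q * ∏ k, x (f k) +
      h * ∑ j, y (f j) * ∏ k ∈ Finset.univ.erase j, x (f k)) = 0)
    (l : Fin m → Module.Dual Ω (Fin N → Ω)) :
    ∑ σ : K →ₐ[L] Ω, (σ q * ∏ k, l k (fun j => σ (x j)) +
      σ h * ∑ j, (l j (fun i => σ (y i)) * ∏ k ∈ Finset.univ.erase j,
        l k (fun i => σ (x i)))) = 0 := by
  classical
  have e2 : ∀ (σ : K →ₐ[L] Ω) (j : Fin m), l j (fun i => σ (y i)) *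
      ∏ k ∈ Finset.univ.erase j, l k (fun i => σ (x i)) =
      ∑ f : Fin m → Fin N, (∏ k, l k (Pi.single (f k) 1)) *
        (σ (y (f j)) * ∏ k ∈ Finset.univ.erase j, σ (x (f k))) := by
    intro σ j
    have h1 := exp_l l (Function.update (fun _ i => σ (x i)) j (fun i => σ (y i)))
    have h2 : ∏ k, l k (Function.update (fun _ i => σ (x i)) j (fun i => σ (y i)) k) =
        l j (fun i => σ (y i)) * ∏ k ∈ Finset.univ.erase j, l k (fun i => σ (x i)) := by
      rw [← Finset.mul_prod_erase _ _ (Finset.mem_univ j), Function.update_self]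
      congr 1
      refine Finset.prod_congr rfl fun k hk => ?_
      rw [Function.update_of_ne (Finset.ne_of_mem_erase hk)]
    rw [← h2, h1]
    refine Finset.sum_congr rfl fun f _ => ?_
    congr 1
    rw [← Finset.mul_prod_erase _ _ (Finset.mem_univ j), Function.update_self]
    congr 1
    refine Finset.prod_congr rfl fun k hk => ?_
    rw [Function.update_of_ne (Finset.ne_of_mem_erase hk)]
  have e3 : ∀ σ : K →ₐ[L] Ω, (σ q * ∏ k, l k (fun j => σ (x j)) +
      σ h * ∑ j, (l j (fun i => σ (y i)) * ∏ k ∈ Finset.univ.erase j,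
        l k (fun i => σ (x i)))) =
      ∑ f : Fin m → Fin N, (∏ k, l k (Pi.single (f k) 1)) * σ (q * ∏ k, x (f k) +
        h * ∑ j, y (f j) * ∏ k ∈ Finset.univ.erase j, x (f k)) := by
    intro σ
    rw [exp_l l (fun _ j => σ (x j)), Finset.sum_congr rfl fun j _ => e2 σ j, Finset.sum_comm,
      Finset.mul_sum, Finset.mul_sum, ← Finset.sum_add_distrib]
    refine Finset.sum_congr rfl fun f _ => ?_
    simp only [map_add, map_mul, map_prod, map_sum]
    rw [← Finset.mul_sum]
    ring
  rw [Finset.sum_congr rfl fun σ _ => e3 σ, Finset.sum_comm]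
  refine Finset.sum_eq_zero fun f _ => ?_
  rw [← Finset.mul_sum, ← trace_eq_sum_embeddings Ω, htr f, map_zero, mul_zero]

end rel

/-- points on a line over the base -/
lemma line_of {L K : Type} [Field L] [Field K] [CharZero L] [Algebra L K]
    [FiniteDimensional L K] {N : ℕ} (x : Fin N → K) (j0 : Fin N) (hj0 : x j0 = 1)
    (hgen : IntermediateField.adjoin L (Set.range x) = ⊤) (hm2 : 2 ≤ finrank L K)
    (hline : ∀ σ1 σ2 : K →ₐ[L] AlgebraicClosure L, σ1 ≠ σ2 →
      ∀ σ : K →ₐ[L] AlgebraicClosure L, (fun j => σ (x j)) ∈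
        Submodule.span (AlgebraicClosure L) {(fun j => σ1 (x j)), (fun j => σ2 (x j))}) :
    ∃ (a b : Fin N → L) (j1 : Fin N),
      (∀ j, x j = algebraMap L K (a j) + x j1 * algebraMap L K (b j)) ∧
      a j0 = 1 ∧ b j0 = 0 ∧ a j1 = 0 ∧ b j1 = 1 ∧
      (∀ p q : L, algebraMap L K p + x j1 * algebraMap L K q = 0 → p = 0 ∧ q = 0) ∧
      ∃ σ1 σ2 : K →ₐ[L] AlgebraicClosure L, σ1 (x j1) ≠ σ2 (x j1) := by
  classical
  let Ω := AlgebraicClosure L
  have hcard : Fintype.card (K →ₐ[L] Ω) = finrank L K := AlgHom.card L K Ω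
  obtain ⟨j1, hj1⟩ : ∃ j1, x j1 ∉ Set.range (algebraMap L K) := by
    by_contra hcon
    push Not at hcon
    have h1 : IntermediateField.adjoin L (Set.range x) = ⊥ := by
      rw [IntermediateField.adjoin_eq_bot_iff]
      rintro _ ⟨j, rfl⟩
      rw [SetLike.mem_coe, IntermediateField.mem_bot]
      exact hcon j
    rw [hgen] at h1
    have h2 : finrank L K = 1 := by
      rw [← IntermediateField.finrank_top', h1]
      exact IntermediateField.finrank_bot
    omega
  set τ := x j1 with hτ
  have hfix : ∀ p : Ω, (∀ g : Ω ≃ₐ[L] Ω, g p = p) → p ∈ Set.range (algebraMap L Ω) := by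
    intro p hp
    exact (InfiniteGalois.mem_range_algebraMap_iff_fixed p).2 hp
  have hact : ∀ (g : Ω ≃ₐ[L] Ω) (σ : K →ₐ[L] Ω) (y : K),
      ((g : Ω →ₐ[L] Ω).comp σ) y = g (σ y) := fun g σ y => rfl
  obtain ⟨σ1, σ2, h12⟩ : ∃ σ1 σ2 : K →ₐ[L] Ω, σ1 τ ≠ σ2 τ := by
    by_contra hcon
    push Not at hcon
    have hne : Nonempty (K →ₐ[L] Ω) := by
      rw [← Fintype.card_pos_iff, hcard]
      exact finrank_pos
    obtain ⟨σ⟩ := hne
    obtain ⟨z, hz⟩ := hfix (σ τ) fun g => by
      rw [← hact]
      exact hcon _ _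
    apply hj1
    refine ⟨z, ?_⟩
    apply σ.toRingHom.injective
    change σ (algebraMap L K z) = σ τ
    rw [AlgHom.commutes, hz]
  have hτne : σ1 τ - σ2 τ ≠ 0 := sub_ne_zero.2 h12
  have key : ∀ j, ∃ p q : L, x j = algebraMap L K p + τ * algebraMap L K q := by
    intro j
    set q : Ω := (σ1 (x j) - σ2 (x j)) / (σ1 τ - σ2 τ) with hq
    set p : Ω := σ1 (x j) - q * σ1 τ with hp
    have hall : ∀ σ : K →ₐ[L] Ω, σ (x j) = p + q * σ τ := by
      intro σ
      have hne12 : σ1 ≠ σ2 := fun e => h12 (by rw [e])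
      have h1 := hline σ1 σ2 hne12 σ
      rw [Submodule.mem_span_pair] at h1
      obtain ⟨s, t, hst⟩ := h1
      have c0 := congrFun hst j0
      have c1 := congrFun hst j1
      have c2 := congrFun hst j
      simp only [Pi.add_apply, Pi.smul_apply, smul_eq_mul, hj0, map_one, mul_one] at c0 c1 c2
      rw [← hτ] at c1
      have hs : s = 1 - t := by linear_combination c0
      have hqm : q * (σ1 τ - σ2 τ) = σ1 (x j) - σ2 (x j) := by
        rw [hq, div_mul_cancel₀ _ hτne]
      rw [← c2, ← c1, hs, hp]
      linear_combination t * hqm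
    have hg : ∀ (g : Ω ≃ₐ[L] Ω), g q = q ∧ g p = p := by
      intro g
      have hσ' : ∀ σ : K →ₐ[L] Ω, g (σ (x j)) = p + q * g (σ τ) := fun σ =>
        hall ((g : Ω →ₐ[L] Ω).comp σ)
      have e1 := hσ' σ1
      have e2 := hσ' σ2
      rw [hall σ1, map_add, map_mul] at e1
      rw [hall σ2, map_add, map_mul] at e2
      have hgne : g (σ1 τ) - g (σ2 τ) ≠ 0 := by
        rw [← map_sub, _root_.map_ne_zero]
        exact hτne
      have e3 : (g q - q) * (g (σ1 τ) - g (σ2 τ)) = 0 := by linear_combination e1 - e2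
      have e4 : g q = q := by
        rcases mul_eq_zero.1 e3 with e | e
        · exact sub_eq_zero.1 e
        · exact absurd e hgne
      refine ⟨e4, ?_⟩
      rw [e4] at e1
      linear_combination e1
    obtain ⟨q', hq'⟩ := hfix q fun g => (hg g).1
    obtain ⟨p', hp'⟩ := hfix p fun g => (hg g).2
    refine ⟨p', q', ?_⟩
    apply σ1.toRingHom.injective
    change σ1 (x j) = σ1 (algebraMap L K p' + τ * algebraMap L K q')
    rw [hall σ1, map_add, map_mul, AlgHom.commutes, AlgHom.commutes, hq', hp']
    ring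
  choose a b hab using key
  have uniq : ∀ p q : L, algebraMap L K p + τ * algebraMap L K q = 0 → p = 0 ∧ q = 0 := by
    intro p q e
    by_cases hq : q = 0
    · subst hq
      rw [map_zero, mul_zero, add_zero] at e
      exact ⟨(map_eq_zero _).1 e, rfl⟩
    · exfalso
      apply hj1
      refine ⟨-p / q, ?_⟩
      have hq' : algebraMap L K q ≠ 0 := by rwa [_root_.map_ne_zero]
      rw [map_div₀, map_neg, div_eq_iff hq']
      linear_combination -e
  have u0 := uniq (a j0 - 1) (b j0) (by
    have := hab j0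
    rw [hj0] at this
    rw [map_sub, map_one]
    linear_combination -this)
  have u1 := uniq (a j1) (b j1 - 1) (by
    have := hab j1
    rw [← hτ] at this
    rw [map_sub, map_one]
    linear_combination -this)
  exact ⟨a, b, j1, hab, sub_eq_zero.1 u0.1, u0.2, u1.1, sub_eq_zero.1 u1.2, uniq, σ1, σ2, h12⟩

theorem stGTx (hCB2 : StCB2) : StGTx := by
  intro L K _ _ _ _ _ _ _ N m x j0 hj0 hgen hm hfin hnl h hh T hT D hTD
  classical
  have hchar : CharZero L := charZero_of_injective_algebraMap (algebraMap ℂ L).injective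
  let Ω := AlgebraicClosure L
  have hcard : Fintype.card (K →ₐ[L] Ω) = finrank L K := AlgHom.card L K Ω
  have hgenL : IntermediateField.adjoin L (Set.range x) = ⊤ := by
    rw [eq_top_iff]
    intro y _
    have h1 : y ∈ IntermediateField.adjoin ℂ (Set.range x) := by
      rw [hgen]
      exact IntermediateField.mem_top
    have h2 : IntermediateField.adjoin ℂ (Set.range x) ≤
        (IntermediateField.adjoin L (Set.range x)).restrictScalars ℂ := by
      rw [IntermediateField.adjoin_le_iff]
      exact IntermediateField.subset_adjoin L (Set.range x)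
    exact h2 h1
  by_contra hD
  -- a nonzero trace
  obtain ⟨g, hg⟩ : ∃ g, T g ≠ 0 := by
    by_contra hcon
    push Not at hcon
    have h1 := (Pool.Agent.Y614.NT.stLine Pool.Agent.Y153.NT.stCB L K N m x j0 hj0 hgenL h hh
      (fun f => by rw [← hT, hcon]) (by omega)).1
    omega
  obtain ⟨lam, hlam⟩ : ∃ lam : L, ∀ f, D (T f) = lam * T f := by
    refine ⟨D (T g) / T g, fun f => ?_⟩
    have h1 := hTD f g
    rw [div_mul_eq_mul_div, eq_div_iff hg]
    linear_combination -h1
  obtain ⟨D', hD'⟩ := exists_lift (K := K) D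
  -- the tangent vector is not zero
  have hx : ∃ j, D' (x j) ≠ 0 := by
    by_contra hcon
    push Not at hcon
    apply hD
    ext y
    have h1 : IntermediateField.adjoin ℂ (Set.range x) ≤ cst D' := by
      rw [IntermediateField.adjoin_le_iff]
      rintro _ ⟨j, rfl⟩
      exact hcon j
    rw [hgen] at h1
    have h2 : D' (algebraMap L K y) = 0 := h1 IntermediateField.mem_top
    rw [hD'] at h2
    exact (map_eq_zero _).1 h2
  have hx0 : D' (x j0) = 0 := by
    rw [hj0]
    exact D'.map_one_eq_zero
  -- the relation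
  have htr : ∀ f : Fin m → Fin N, Algebra.trace L K ((D' h - algebraMap L K lam * h) *
      ∏ k, x (f k) + h * ∑ j, D' (x (f j)) * ∏ k ∈ Finset.univ.erase j, x (f k)) = 0 := by
    intro f
    have hprod : ∀ s : Finset (Fin m), D' (∏ k ∈ s, x (f k)) =
        ∑ j ∈ s, D' (x (f j)) * ∏ k ∈ s.erase j, x (f k) := by
      intro s
      induction s using Finset.induction_on with
      | empty => simp [D'.map_one_eq_zero]
      | insert i s hi ih =>
        rw [Finset.prod_insert hi, D'.leibniz, ih, Finset.sum_insert hi, Finset.erase_insert hi,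
          smul_eq_mul, smul_eq_mul, Finset.mul_sum, add_comm, mul_comm (∏ k ∈ s, x (f k))]
        congr 1
        refine Finset.sum_congr rfl fun j hj => ?_
        have hji : i ≠ j := fun e => hi (e ▸ hj)
        rw [Finset.erase_insert_of_ne hji, Finset.prod_insert
          (fun e => hi (Finset.mem_of_mem_erase e))]
        ring
    have h1 : D' ((∏ k, x (f k)) * h) = D' h * ∏ k, x (f k) +
        h * ∑ j, D' (x (f j)) * ∏ k ∈ Finset.univ.erase j, x (f k) := by
      rw [D'.leibniz, hprod, smul_eq_mul, smul_eq_mul]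
      ring
    have h2 := trace_der hD' ((∏ k, x (f k)) * h)
    rw [← hT, hlam, h1] at h2
    have h3 : (D' h - algebraMap L K lam * h) * ∏ k, x (f k) +
        h * ∑ j, D' (x (f j)) * ∏ k ∈ Finset.univ.erase j, x (f k) =
        (D' h * ∏ k, x (f k) + h * ∑ j, D' (x (f j)) * ∏ k ∈ Finset.univ.erase j, x (f k)) -
        lam • ((∏ k, x (f k)) * h) := by
      rw [Algebra.smul_def]
      ring
    rw [h3, map_sub, map_smul, h2, ← hT, smul_eq_mul, sub_self]
  obtain ⟨hm2, hspan⟩ := hCB2 Ω N (K →ₐ[L] Ω) m Finset.univ (fun σ j => σ (x j))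
    (fun σ j => σ (D' (x j))) (fun σ => σ (D' h - algebraMap L K lam * h)) (fun σ => σ h)
    (by
      rw [← Finset.card_pos, Finset.card_univ, hcard]
      exact finrank_pos)
    (fun σ _ => by
      rw [_root_.map_ne_zero]
      exact hh)
    (fun σ _ => by
      rw [LinearIndependent.pair_iff]
      intro s t hst
      have h1 := congrFun hst j0
      simp only [Pi.add_apply, Pi.smul_apply, smul_eq_mul, hj0, map_one, mul_one,
        Pi.zero_apply, D'.map_one_eq_zero, map_zero, mul_zero, add_zero] at h1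
      obtain ⟨j, hj⟩ := hx
      have h2 := congrFun hst j
      simp only [Pi.add_apply, Pi.smul_apply, smul_eq_mul, Pi.zero_apply, h1, zero_mul,
        zero_add] at h2
      exact ⟨h1, (mul_eq_zero.1 h2).resolve_right fun e => hj ((_root_.map_eq_zero σ).1 e)⟩)
    (fun σ _ σ' _ hne => by
      rw [LinearIndependent.pair_iff]
      intro s t hst
      have h1 := congrFun hst j0
      simp only [Pi.add_apply, Pi.smul_apply, smul_eq_mul, hj0, map_one, mul_one,
        Pi.zero_apply] at h1
      have h2 : t = -s := by linear_combination h1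
      subst h2
      by_cases hs : s = 0
      · simp [hs]
      · exfalso
        apply hne
        apply Pool.Agent.Y614.NT.emb_ext x hgenL
        intro j
        have h3 := congrFun hst j
        simp only [Pi.add_apply, Pi.smul_apply, smul_eq_mul, Pi.zero_apply] at h3
        have h4 : s * (σ (x j) - σ' (x j)) = 0 := by linear_combination h3
        rcases mul_eq_zero.1 h4 with h5 | h5
        · exact absurd h5 hs
        · exact sub_eq_zero.1 h5)
    (fun l => rel2 x (fun j => D' (x j)) h _ htr l)
    (by rw [Finset.card_univ, hcard]; omega)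
  rw [Finset.card_univ, hcard] at hm2
  obtain ⟨a, b, j1, hab, a0, b0, a1, b1, uniq, σ1, σ2, h12⟩ := line_of x j0 hj0 hgenL (by omega)
    (fun σ1 σ2 hne σ => (hspan σ1 (Finset.mem_univ _) σ2 (Finset.mem_univ _) hne σ
      (Finset.mem_univ _)).1)
  -- the derivative of the coordinates
  have hDx : ∀ j, D' (x j) = D' (x j1) * algebraMap L K (b j) := by
    intro j
    have hne12 : σ1 ≠ σ2 := fun e => h12 (by rw [e])
    have h1 := (hspan σ1 (Finset.mem_univ _) σ2 (Finset.mem_univ _) hne12 σ1
      (Finset.mem_univ _)).2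
    rw [Submodule.mem_span_pair] at h1
    obtain ⟨s, t, hst⟩ := h1
    have c0 := congrFun hst j0
    have c1 := congrFun hst j1
    have c2 := congrFun hst j
    simp only [Pi.add_apply, Pi.smul_apply, smul_eq_mul, hj0, map_one, mul_one,
      D'.map_one_eq_zero, map_zero] at c0 c1 c2
    have e1 : σ1 (x j) = algebraMap L Ω (a j) + σ1 (x j1) * algebraMap L Ω (b j) := by
      conv_lhs => rw [hab j]
      rw [map_add, map_mul, AlgHom.commutes, AlgHom.commutes]
    have e2 : σ2 (x j) = algebraMap L Ω (a j) + σ2 (x j1) * algebraMap L Ω (b j) := by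
      conv_lhs => rw [hab j]
      rw [map_add, map_mul, AlgHom.commutes, AlgHom.commutes]
    apply σ1.toRingHom.injective
    change σ1 (D' (x j)) = σ1 (D' (x j1) * algebraMap L K (b j))
    rw [map_mul, AlgHom.commutes, ← c2, ← c1, e1, e2]
    linear_combination (algebraMap L Ω (a j)) * c0
  have hDab : ∀ j, D (a j) = 0 ∧ D (b j) = 0 := by
    intro j
    apply uniq
    have h1 : D' (x j) = algebraMap L K (D (a j)) + (D' (x j1) * algebraMap L K (b j) +
        x j1 * algebraMap L K (D (b j))) := by
      conv_lhs => rw [hab j]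
      rw [map_add, D'.leibniz, hD', hD', smul_eq_mul, smul_eq_mul]
      ring
    rw [hDx j] at h1
    linear_combination -h1
  have hLI : LinearIndependent L ![a, b] := by
    rw [LinearIndependent.pair_iff]
    intro s t hst
    have c0 := congrFun hst j0
    have c1 := congrFun hst j1
    simp only [Pi.add_apply, Pi.smul_apply, smul_eq_mul, Pi.zero_apply] at c0 c1
    rw [a0, b0] at c0
    rw [a1, b1] at c1
    refine ⟨?_, ?_⟩
    · simpa using c0
    · simpa using c1
  obtain ⟨F, hF, hP⟩ := hnl a b (x j1) hLI hab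
  -- the parameter is algebraic over the constants
  let a' : Fin N → cst D' := fun j => ⟨algebraMap L K (a j), by
    rw [mem_cst, hD', (hDab j).1, map_zero]⟩
  let b' : Fin N → cst D' := fun j => ⟨algebraMap L K (b j), by
    rw [mem_cst, hD', (hDab j).2, map_zero]⟩
  let P0 : (cst D')[X] := MvPolynomial.aeval (fun j => C (a' j) + X * C (b' j)) F
  have hP0 : P0 ≠ 0 := by
    intro h0
    let φ1 : (cst D')[X] →ₐ[ℂ] K[X] := Polynomial.mapAlgHom (IsScalarTower.toAlgHom ℂ (cst D') K)
    let φ2 : L[X] →ₐ[ℂ] K[X] := Polynomial.mapAlgHom (IsScalarTower.toAlgHom ℂ L K)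
    have h1 : φ1 P0 = MvPolynomial.aeval
        (fun j => C (algebraMap L K (a j)) + X * C (algebraMap L K (b j))) F := by
      show φ1 (MvPolynomial.aeval (fun j => C (a' j) + X * C (b' j)) F) = _
      rw [MvPolynomial.comp_aeval_apply]
      congr 1
      congr 1
      funext j
      simp only [φ1, map_add, map_mul, Polynomial.coe_mapAlgHom, Polynomial.map_C,
        Polynomial.map_X]
      rfl
    have h2 : φ2 (restr F a b) = MvPolynomial.aeval
        (fun j => C (algebraMap L K (a j)) + X * C (algebraMap L K (b j))) F := by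
      unfold restr
      rw [MvPolynomial.comp_aeval_apply]
      congr 1
      congr 1
      funext j
      unfold lin
      simp only [φ2, map_add, map_mul, Polynomial.coe_mapAlgHom, Polynomial.map_C,
        Polynomial.map_X]
      rfl
    apply hP
    have h3 : φ2 (restr F a b) = 0 := by rw [h2, ← h1, h0, map_zero]
    have h4 : (restr F a b).map (algebraMap L K) = 0 := h3
    exact (Polynomial.map_eq_zero _).1 h4
  have hroot : aeval (x j1) P0 = 0 := by
    let ev : (cst D')[X] →ₐ[ℂ] K := (Polynomial.aeval (x j1)).restrictScalars ℂ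
    have h1 : ev P0 = MvPolynomial.aeval x F := by
      show ev (MvPolynomial.aeval (fun j => C (a' j) + X * C (b' j)) F) = _
      rw [MvPolynomial.comp_aeval_apply]
      congr 1
      congr 1
      funext j
      show Polynomial.aeval (x j1) (C (a' j) + X * C (b' j)) = x j
      rw [map_add, map_mul, Polynomial.aeval_C, Polynomial.aeval_C, Polynomial.aeval_X]
      exact (hab j).symm
    rw [hF] at h1
    exact h1
  have hτ : D' (x j1) = 0 := const_of_alg D' ⟨P0, hP0, hroot⟩
  obtain ⟨j, hj⟩ := hx
  apply hj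
  rw [hDx j, hτ, zero_mul]

theorem stGT (hCB2 : StCB2) : StGT := by
  intro L K _ _ _ _ _ _ _ N m F x j0 hj0 hgen hF hm hfin hnl
  exact stGTx hCB2 L K N m x j0 hj0 hgen hm hfin fun a b τ h1 h2 => ⟨F, hF, hnl a b τ h1 h2⟩

end Pool.Agent.Y954.NT
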